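import Mathlib

/-!
# Weavings of lines: definitions

The plane is `ℝ × ℝ`, space is `ℝ × ℝ × ℝ`, and `proj` is the orthogonal projection to the
`xy`-plane.
-/

namespace Pool.Agent.H23.Weave

/-- `L` is a straight line of the real vector space `E`. -/
def IsLine {E : Type} [AddCommGroup E] [Module ℝ E] (L : Set E) : Prop :=
  ∃ p v : E, v ≠ 0 ∧ L = {x | ∃ t : ℝ, x = p + t • v}

/-- Orthogonal projection of space to the `xy`-plane. -/
def proj (q : ℝ × ℝ × ℝ) : ℝ × ℝ := (q.1, q.2.1)

/-- The family `L` is a simple arrangement of lines in the plane: any two of its lines have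
exactly one common point (so they are distinct and not parallel), and no three are concurrent. -/
structure IsSimpleArrangement {ι : Type} (L : ι → Set (ℝ × ℝ)) : Prop where
  isLine : ∀ i, IsLine (L i)
  cross : ∀ i j, i ≠ j → ∃! p, p ∈ L i ∧ p ∈ L j
  no_three : ∀ i j k, i ≠ j → j ≠ k → i ≠ k → ¬ ∃ p, p ∈ L i ∧ p ∈ L j ∧ p ∈ L k

/-- A weaving with lines indexed by `ι`: a simple arrangement of lines in the plane, and for any
two different lines exactly one of them is designated to lie above the other; `above i j` means
that line `i` is above line `j`. -/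
structure Weaving (ι : Type) where
  line : ι → Set (ℝ × ℝ)
  simple : IsSimpleArrangement line
  above : ι → ι → Prop
  above_iff : ∀ i j, i ≠ j → (above i j ↔ ¬ above j i)

variable {ι : Type}

/-- The lines `R i` in space respect the designations `above`: whenever `i` is above `j` and `a`
on `R i`, `b` on `R j` lie on a common vertical line, `a` is strictly higher than `b`. -/
def Respects (above : ι → ι → Prop) (R : ι → Set (ℝ × ℝ × ℝ)) : Prop :=
  ∀ i j, i ≠ j → above i j → ∀ a ∈ R i, ∀ b ∈ R j, proj a = proj b → b.2.2 < a.2.2

/-- A weaving is realizable if there are lines in space whose projections are exactly the lines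
of the weaving and which respect the designations. -/
def Weaving.Realizable (W : Weaving ι) : Prop :=
  ∃ R : ι → Set (ℝ × ℝ × ℝ), (∀ i, IsLine (R i)) ∧ (∀ i, proj '' R i = W.line i) ∧
    Respects W.above R

/-- On line `i`, the crossing with line `k` lies strictly between the crossings with the lines
`j` and `l`. -/
def CrossBetween (L : ι → Set (ℝ × ℝ)) (i j k l : ι) : Prop :=
  ∃ p q r : ℝ × ℝ, (p ∈ L i ∧ p ∈ L j) ∧ (q ∈ L i ∧ q ∈ L k) ∧ (r ∈ L i ∧ r ∈ L l) ∧ Sbtw ℝ p q r

/-- A weaving is weakly realizable if there are lines `R i` in space which respect the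
designations and whose projections form a simple arrangement such that, along each line, the
crossings with the other lines come in the same order as in the weaving (up to reversal of the
line).  Every combinatorial equivalence between the planar maps of two arrangements that is
compatible with the indexing of the lines preserves these orders. -/
def Weaving.WeaklyRealizable (W : Weaving ι) : Prop :=
  ∃ R : ι → Set (ℝ × ℝ × ℝ), (∀ i, IsLine (R i)) ∧
    IsSimpleArrangement (fun i => proj '' R i) ∧
    (∀ i j k l, j ≠ i → k ≠ i → l ≠ i → j ≠ k → k ≠ l → j ≠ l →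
      (CrossBetween W.line i j k l ↔ CrossBetween (fun i => proj '' R i) i j k l)) ∧
    Respects W.above R

/-- Deletion of the line `ℓ` from a weaving. -/
def Weaving.delete (W : Weaving ι) (ℓ : ι) : Weaving {i : ι // i ≠ ℓ} where
  line i := W.line i
  simple :=
    { isLine := fun i => W.simple.isLine i
      cross := fun i j hij => W.simple.cross i j (fun h => hij (Subtype.ext h))
      no_three := fun i j k hij hjk hik => W.simple.no_three i j k (fun h => hij (Subtype.ext h))
        (fun h => hjk (Subtype.ext h)) (fun h => hik (Subtype.ext h)) }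
  above i j := W.above i j
  above_iff := fun i j hij => W.above_iff i j (fun h => hij (Subtype.ext h))

/-- A realizable weaving is weakly realizable. -/
theorem Weaving.Realizable.weak {W : Weaving ι} (h : W.Realizable) : W.WeaklyRealizable := by
  obtain ⟨R, h1, h2, h3⟩ := h
  have e : (fun i => proj '' R i) = W.line := funext h2
  refine ⟨R, h1, ?_, ?_, h3⟩
  · rw [e]; exact W.simple
  · intro i j k l _ _ _ _ _ _
    rw [e]

/-- The tangent line to the parabola `y = x ^ 2` at the point `(k, k ^ 2)`. -/
def tangentLine (k : ℕ) : Set (ℝ × ℝ) := {p | p.2 = 2 * (k : ℝ) * p.1 - (k : ℝ) ^ 2}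

lemma tangent_cross {i j : ℕ} (hij : i ≠ j) (p : ℝ × ℝ) :
    (p ∈ tangentLine i ∧ p ∈ tangentLine j) ↔ p = (((i : ℝ) + j) / 2, (i : ℝ) * j) := by
  have hne : (i : ℝ) - j ≠ 0 := sub_ne_zero.mpr (by exact_mod_cast hij)
  constructor
  · rintro ⟨h1, h2⟩
    simp only [tangentLine, Set.mem_ofPred_eq] at h1 h2
    have hx : p.1 = ((i : ℝ) + j) / 2 := by
      have : ((i : ℝ) - j) * (p.1 - ((i : ℝ) + j) / 2) = 0 := by linarith
      rcases mul_eq_zero.mp this with h | h
      · exact absurd h hne
      · linarith
    refine Prod.ext hx ?_
    rw [h1, hx]; ring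
  · rintro rfl
    constructor <;> simp only [tangentLine, Set.mem_ofPred_eq] <;> ring

lemma tangent_isLine (k : ℕ) : IsLine (tangentLine k) := by
  refine ⟨(0, -(k : ℝ) ^ 2), (1, 2 * (k : ℝ)), ?_, ?_⟩
  · intro h
    have := congrArg Prod.fst h
    simp at this
  · ext p
    simp only [tangentLine, Set.mem_ofPred_eq]
    constructor
    · intro h
      refine ⟨p.1, Prod.ext ?_ ?_⟩
      · simp
      · simp only [Prod.snd_add, Prod.smul_snd, smul_eq_mul]
        rw [h]; ring
    · rintro ⟨t, rfl⟩
      simp
      ring

lemma tangent_simple (n : ℕ) : IsSimpleArrangement (fun i : Fin n => tangentLine i) where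
  isLine := fun i => tangent_isLine i
  cross := by
    intro i j hij
    have hij' : i.1 ≠ j.1 := fun h => hij (Fin.ext h)
    refine ⟨_, (tangent_cross hij' _).mpr rfl, ?_⟩
    intro y hy
    exact (tangent_cross hij' y).mp hy
  no_three := by
    rintro i j k hij hjk hik ⟨p, hi, hj, hk⟩
    have h1 := (tangent_cross (fun h => hij (Fin.ext h)) p).mp ⟨hi, hj⟩
    have h2 := (tangent_cross (fun h => hik (Fin.ext h)) p).mp ⟨hi, hk⟩
    rw [h1] at h2
    have := congrArg Prod.fst h2
    simp only at this
    apply hjk
    apply Fin.ext
    have h3 : (j.1 : ℝ) = k.1 := by linarith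
    exact_mod_cast h3

/-- For `i < j < n`: the indices `i`, `j` are cyclically consecutive modulo `n`. -/
def Consec (n : ℕ) (i j : Fin n) : Prop := i.1 + 1 = j.1 ∨ (i.1 = 0 ∧ j.1 = n - 1)

/-- The weaving of `n` lines on the tangent lines `0, 1, ..., n - 1` of the parabola: of two
cyclically consecutive lines the one of smaller index is above, and otherwise the one of larger
index is above. -/
def cyclicWeaving (n : ℕ) : Weaving (Fin n) where
  line := fun i => tangentLine i
  simple := tangent_simple n
  above := fun i j => (i < j ∧ Consec n i j) ∨ (j < i ∧ ¬ Consec n j i)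
  above_iff := by
    intro i j hij
    rcases lt_or_gt_of_ne hij with h | h
    · have h' : ¬ j < i := not_lt.mpr h.le
      simp only [h, h', true_and, false_and, or_false, false_or, not_not]
    · have h' : ¬ i < j := not_lt.mpr h.le
      simp only [h, h', true_and, false_and, or_false, false_or]

end Pool.Agent.H23.Weave
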