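import Pool.Agent.H23.Weave.Poly

namespace Pool.Agent.H23.Weave

/-- Convex `n`-gon with vertices `(c i, b i)`, velocities `(h i, s i)`: it is impossible that all
sides contract and all diagonals expand. -/
theorem fin_contra (n : ℕ) (hn : 4 ≤ n) (c b h s : Fin n → ℝ)
    (ho : ∀ i j k : Fin n, i < j → j < k →
      0 < (c j - c i) * (b k - b j) - (b j - b i) * (c k - c j))
    (hside : ∀ i j : Fin n, (i.1 + 1 = j.1 ∨ (i.1 = 0 ∧ j.1 = n - 1)) →
      (h j - h i) * (c j - c i) + (s j - s i) * (b j - b i) < 0)
    (hdiag : ∀ i j : Fin n, i.1 + 1 < j.1 → ¬ (i.1 = 0 ∧ j.1 = n - 1) →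
      0 < (h j - h i) * (c j - c i) + (s j - s i) * (b j - b i)) : False := by
  have hn0 : 0 < n := by omega
  set m : ℕ → Fin n := fun k => ⟨k % n, Nat.mod_lt _ hn0⟩ with hm
  have mper : ∀ k, m (k + n) = m k := by
    intro k; simp [hm]
  have mval : ∀ k j, k % n + j < n → (m (k + j)).1 = k % n + j := by
    intro k j hj
    simp only [hm]
    rw [← Nat.mod_add_mod, Nat.mod_eq_of_lt hj]
  have mval' : ∀ k j, n ≤ k % n + j → k % n + j < 2 * n → (m (k + j)).1 = k % n + j - n := by
    intro k j hj hj'
    simp only [hm]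
    rw [← Nat.mod_add_mod, Nat.mod_eq_sub_mod hj, Nat.mod_eq_of_lt (by omega)]
  have mval0 : ∀ k, (m k).1 = k % n := fun k => rfl
  have hlt : ∀ k, k % n < n := fun k => Nat.mod_lt _ hn0
  refine poly_contra n hn0 (fun k => c (m k)) (fun k => b (m k)) (fun k => h (m k))
    (fun k => s (m k)) (fun k => by simp only [mper]) (fun k => by simp only [mper])
    (fun k => by simp only [mper]) (fun k => by simp only [mper]) ?_ ?_ ?_ ?_
  · intro k
    have hk := hlt k
    have v0 := mval0 k
    rcases lt_or_ge (k % n + 2) n with h2 | h2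
    · exact ho (m k) (m (k + 1)) (m (k + 2)) (by rw [Fin.lt_def, mval k 1 (by omega), v0]; omega)
        (by rw [Fin.lt_def, mval k 1 (by omega), mval k 2 (by omega)]; omega)
    · rcases lt_or_ge (k % n + 1) n with h1 | h1
      · -- order: k+2, k, k+1
        have := ho (m (k + 2)) (m k) (m (k + 1))
          (by rw [Fin.lt_def, mval' k 2 (by omega) (by omega), v0]; omega)
          (by rw [Fin.lt_def, mval k 1 (by omega), v0]; omega)
        linarith
      · -- order: k+1, k+2, k
        have := ho (m (k + 1)) (m (k + 2)) (m k)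
          (by rw [Fin.lt_def, mval' k 2 (by omega) (by omega), mval' k 1 (by omega) (by omega)]; omega)
          (by rw [Fin.lt_def, mval' k 2 (by omega) (by omega), v0]; omega)
        linarith
  · intro k
    have hk := hlt k
    have v0 := mval0 k
    rcases lt_or_ge (k % n + 3) n with h2 | h2
    · exact ho (m k) (m (k + 1)) (m (k + 3)) (by rw [Fin.lt_def, mval k 1 (by omega), v0]; omega)
        (by rw [Fin.lt_def, mval k 1 (by omega), mval k 3 (by omega)]; omega)
    · rcases lt_or_ge (k % n + 1) n with h1 | h1
      · have := ho (m (k + 3)) (m k) (m (k + 1))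
          (by rw [Fin.lt_def, mval' k 3 (by omega) (by omega), v0]; omega)
          (by rw [Fin.lt_def, mval k 1 (by omega), v0]; omega)
        linarith
      · have := ho (m (k + 1)) (m (k + 3)) (m k)
          (by rw [Fin.lt_def, mval' k 3 (by omega) (by omega), mval' k 1 (by omega) (by omega)]; omega)
          (by rw [Fin.lt_def, mval' k 3 (by omega) (by omega), v0]; omega)
        linarith
  · intro k
    have hk := hlt k
    have v0 := mval0 k
    rcases lt_or_ge (k % n + 1) n with h1 | h1
    · exact hside (m k) (m (k + 1)) (Or.inl (by rw [mval k 1 h1, v0]))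
    · have := hside (m (k + 1)) (m k) (Or.inr ⟨by rw [mval' k 1 (by omega) (by omega)]; omega,
        by rw [v0]; omega⟩)
      linarith
  · intro k
    have hk := hlt k
    have v0 := mval0 k
    rcases lt_or_ge (k % n + 2) n with h2 | h2
    · exact hdiag (m k) (m (k + 2)) (by rw [mval k 2 h2, v0]; omega)
        (by rw [mval k 2 h2, v0]; omega)
    · have := hdiag (m (k + 2)) (m k) (by rw [mval' k 2 (by omega) (by omega), v0]; omega)
        (by rw [mval' k 2 (by omega) (by omega), v0]; omega)
      linarith

end Pool.Agent.H23.Weave
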