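import Pool.Agent.H23.Weave.FinContra

namespace Pool.Agent.H23.Weave

/-- Lines `(px i, py i, z i) + t (dx i, dy i, w i)` in space.  `t i j` is the parameter, on the
projection of line `i`, of its crossing with the projection of line `j`. -/
theorem param_contra (n : ℕ) (hn : 4 ≤ n) (px py dx dy z w : Fin n → ℝ) (t : Fin n → Fin n → ℝ)
    (hx : ∀ i j, i ≠ j → px i + t i j * dx i = px j + t j i * dx j)
    (hy : ∀ i j, i ≠ j → py i + t i j * dy i = py j + t j i * dy j)
    (hdet : ∀ i j, i ≠ j → dx i * dy j - dy i * dx j ≠ 0)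
    (hmono : ∀ i j k, j < k → j ≠ i → k ≠ i → t i j < t i k)
    (hside : ∀ i j : Fin n, (i.1 + 1 = j.1 ∨ (i.1 = 0 ∧ j.1 = n - 1)) →
      z j + t j i * w j < z i + t i j * w i)
    (hdiag : ∀ i j : Fin n, i.1 + 1 < j.1 → ¬ (i.1 = 0 ∧ j.1 = n - 1) →
      z i + t i j * w i < z j + t j i * w j) : False := by
  set O : Fin n := ⟨0, by omega⟩ with hO
  set N : Fin n := ⟨n - 1, by omega⟩ with hN
  have hON : O < N := by rw [Fin.lt_def]; simp only [hO, hN]; omega
  have hOle : ∀ i : Fin n, i ≠ O → O < i := by
    intro i hi
    rw [Fin.lt_def]; simp only [hO]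
    rcases Nat.eq_zero_or_pos i.1 with h | h
    · exact absurd (Fin.ext (by simpa [hO] using h)) hi
    · exact h
  have hNle : ∀ i : Fin n, i ≠ N → i < N := by
    intro i hi
    rw [Fin.lt_def]; simp only [hN]
    have := i.2
    rcases Nat.lt_or_ge i.1 (n - 1) with h | h
    · exact h
    · exact absurd (Fin.ext (by simp only [hN]; omega)) hi
  -- triples
  have tri : ∀ i j k : Fin n, i < j → j < k →
      (t j k - t j i) * dx j = (t i k - t i j) * dx i + (t k j - t k i) * dx k ∧
      (t j k - t j i) * dy j = (t i k - t i j) * dy i + (t k j - t k i) * dy k := by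
    intro i j k hij hjk
    have hik := hij.trans hjk
    constructor
    · have e1 := hx i j hij.ne
      have e2 := hx j k hjk.ne
      have e3 := hx i k hik.ne
      linarith
    · have e1 := hy i j hij.ne
      have e2 := hy j k hjk.ne
      have e3 := hy i k hik.ne
      linarith
  have pos1 : ∀ i j k : Fin n, i < j → j < k → 0 < t j k - t j i := fun i j k hij hjk =>
    sub_pos.mpr (hmono j i k (hij.trans hjk) hij.ne hjk.ne')
  have pos2 : ∀ i j k : Fin n, i < j → j < k → 0 < t i k - t i j := fun i j k hij hjk =>
    sub_pos.mpr (hmono i j k hjk hij.ne' (hij.trans hjk).ne')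
  have pos3 : ∀ i j k : Fin n, i < j → j < k → 0 < t k j - t k i := fun i j k hij hjk =>
    sub_pos.mpr (hmono k i j hij (hij.trans hjk).ne hjk.ne)
  set det : Fin n → Fin n → ℝ := fun i j => dx i * dy j - dy i * dx j with hdetdef
  have detself : ∀ i, det i i = 0 := fun i => by simp only [hdetdef]; ring
  have rel1 : ∀ i j k : Fin n, i < j → j < k →
      (t j k - t j i) * det i j = (t k j - t k i) * det i k := by
    intro i j k hij hjk
    obtain ⟨e1, e2⟩ := tri i j k hij hjk
    simp only [hdetdef]
    linear_combination dx i * e2 - dy i * e1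
  have rel2 : ∀ i j k : Fin n, i < j → j < k →
      (t j k - t j i) * det j k = (t i k - t i j) * det i k := by
    intro i j k hij hjk
    obtain ⟨e1, e2⟩ := tri i j k hij hjk
    simp only [hdetdef]
    linear_combination dy k * e1 - dx k * e2
  set D0 : ℝ := det O N with hD0
  have hD0ne : D0 ≠ 0 := hdet O N hON.ne
  have hD0sq : 0 < D0 * D0 := mul_self_pos.mpr hD0ne
  have dO : ∀ j, O < j → 0 < D0 * det O j := by
    intro j hj
    rcases eq_or_ne j N with h | h
    · rw [h]; exact hD0sq
    · have hjN := hNle j h
      have r := rel1 O j N hj hjN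
      have p1 := pos1 O j N hj hjN
      have p3 := pos3 O j N hj hjN
      have : (t j N - t j O) * (D0 * det O j) = (t N j - t N O) * (D0 * D0) := by
        rw [hD0]; linear_combination D0 * r
      have hp : 0 < (t j N - t j O) * (D0 * det O j) := by rw [this]; exact mul_pos p3 hD0sq
      exact (pos_iff_pos_of_mul_pos hp).mp p1
  have dpos : ∀ i j, i < j → 0 < D0 * det i j := by
    intro i j hij
    rcases eq_or_ne i O with h | h
    · rw [h] at hij ⊢; exact dO j hij
    · have hOi := hOle i h
      have r := rel2 O i j hOi hij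
      have p1 := pos1 O i j hOi hij
      have p2 := pos2 O i j hOi hij
      have : (t i j - t i O) * (D0 * det i j) = (t O j - t O i) * (D0 * det O j) := by
        linear_combination D0 * r
      have hp : 0 < (t i j - t i O) * (D0 * det i j) := by
        rw [this]; exact mul_pos p2 (dO j (hOi.trans hij))
      exact (pos_iff_pos_of_mul_pos hp).mp p1
  set ξ : Fin n → ℝ := fun i => D0 * (det O i + det i N) with hξ
  set η : Fin n → ℝ := fun i => D0 * det O i with hη
  have ξpos : ∀ i, 0 < ξ i := by
    intro i
    simp only [hξ, mul_add]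
    rcases eq_or_ne i O with h | h
    · rw [h, detself]; simpa using dpos O N hON
    · rcases eq_or_ne i N with h' | h'
      · rw [h', detself]; simpa using dpos O N hON
      · exact add_pos (dpos O i (hOle i h)) (dpos i N (hNle i h'))
  set X : Fin n → ℝ := fun i => D0 * ((dx O * py i - dy O * px i) + (px i * dy N - py i * dx N)) with hX
  set Y : Fin n → ℝ := fun i => D0 * (dx O * py i - dy O * px i) with hY
  have crossX : ∀ i j, i ≠ j → X i + t i j * ξ i = X j + t j i * ξ j := by
    intro i j hij
    have e1 := hx i j hij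
    have e2 := hy i j hij
    simp only [hX, hξ, hdetdef]
    linear_combination D0 * (dx O - dx N) * e2 + D0 * (dy N - dy O) * e1
  have crossY : ∀ i j, i ≠ j → Y i + t i j * η i = Y j + t j i * η j := by
    intro i j hij
    have e1 := hx i j hij
    have e2 := hy i j hij
    simp only [hY, hη, hdetdef]
    linear_combination D0 * dx O * e2 - D0 * dy O * e1
  set c : Fin n → ℝ := fun i => η i / ξ i with hc
  set b : Fin n → ℝ := fun i => c i * X i - Y i with hb
  set s : Fin n → ℝ := fun i => w i / ξ i with hs
  set h : Fin n → ℝ := fun i => z i - s i * X i with hh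
  have cξ : ∀ i, c i * ξ i = η i := fun i => div_mul_cancel₀ _ (ξpos i).ne'
  have sξ : ∀ i, s i * ξ i = w i := fun i => div_mul_cancel₀ _ (ξpos i).ne'
  have cinc : ∀ i j, i < j → 0 < c j - c i := by
    intro i j hij
    have hd := dpos i j hij
    have pl : η j * ξ i - η i * ξ j = (D0 * D0) * (D0 * det i j) := by
      simp only [hη, hξ, hD0, hdetdef]; ring
    rw [hc]
    simp only
    rw [div_sub_div _ _ (ξpos j).ne' (ξpos i).ne']
    apply div_pos _ (mul_pos (ξpos j) (ξpos i))
    have : 0 < η j * ξ i - η i * ξ j := by rw [pl]; exact mul_pos hD0sq hd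
    linarith
  -- heights at crossings
  have ht : ∀ i j, h i + s i * (X i + t i j * ξ i) = z i + t i j * w i := by
    intro i j
    have := sξ i
    simp only [hh]
    linear_combination t i j * this
  have hbd : ∀ i j, i ≠ j → b j - b i = (c j - c i) * (X i + t i j * ξ i) := by
    intro i j hij
    have e1 := crossX i j hij
    have e2 := crossY i j hij
    have e3 := cξ i
    have e4 := cξ j
    simp only [hb]
    linear_combination (-c j) * e1 + e2 - t j i * e4 + t i j * e3
  have Dval : ∀ i j, i ≠ j → (h j - h i) * (c j - c i) + (s j - s i) * (b j - b i)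
      = (c j - c i) * ((z j + t j i * w j) - (z i + t i j * w i)) := by
    intro i j hij
    have e1 := crossX i j hij
    rw [hbd i j hij, ← ht i j, ← ht j i]
    linear_combination (c j - c i) * s j * e1
  refine fin_contra n hn c b h s ?_ ?_ ?_
  · intro i j k hij hjk
    rw [hbd j k hjk.ne, show b j - b i = (c j - c i) * (X j + t j i * ξ j) by
      rw [hbd i j hij.ne, crossX i j hij.ne]]
    have : (c j - c i) * ((c k - c j) * (X j + t j k * ξ j))
        - (c j - c i) * (X j + t j i * ξ j) * (c k - c j)
        = (c j - c i) * (c k - c j) * ((t j k - t j i) * ξ j) := by ring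
    rw [this]
    exact mul_pos (mul_pos (cinc i j hij) (cinc j k hjk)) (mul_pos (pos1 i j k hij hjk) (ξpos j))
  · intro i j hij
    have hlt : i < j := by
      rw [Fin.lt_def]
      rcases hij with h | ⟨h1, h2⟩ <;> omega
    rw [Dval i j hlt.ne]
    exact mul_neg_of_pos_of_neg (cinc i j hlt) (by linarith [hside i j hij])
  · intro i j hij hne
    have hlt : i < j := by rw [Fin.lt_def]; omega
    rw [Dval i j hlt.ne]
    exact mul_pos (cinc i j hlt) (by linarith [hdiag i j hij hne])

end Pool.Agent.H23.Weave
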