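import Pool.Agent.H23.Weave.Defs
import Pool.Agent.H23.Weave.ParamContra

namespace Pool.Agent.H23.Weave

lemma mono_aux1 (n : ℕ) (i a b : Fin n) (f : Fin n → ℝ)
    (hf : ∀ j k l : Fin n, j < k → k < l → j ≠ i → k ≠ i → l ≠ i →
      (f j < f k ∧ f k < f l) ∨ (f l < f k ∧ f k < f j))
    (hai : a ≠ i) (hbi : b ≠ i) (hab : a < b) (hmin : ∀ j : Fin n, j ≠ i → j ≠ a → b ≤ j)
    (hlt : f a < f b) : ∀ j k : Fin n, j < k → j ≠ i → k ≠ i → f j < f k := by
  have big : ∀ k, b < k → k ≠ i → f b < f k := by
    intro k hbk hk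
    rcases hf a b k hab hbk hai hbi hk with h | h
    · exact h.2
    · exact absurd h.2 (not_lt.mpr hlt.le)
  intro j k hjk hj hk
  rcases eq_or_ne j a with rfl | hja
  · rcases eq_or_ne k b with rfl | hkb
    · exact hlt
    · have hk' : b < k := lt_of_le_of_ne (hmin k hk hjk.ne') (Ne.symm hkb)
      exact hlt.trans (big k hk' hk)
  · have hbj := hmin j hj hja
    rcases eq_or_lt_of_le hbj with rfl | hbj'
    · exact big k hjk hk
    · rcases hf b j k hbj' hjk hbi hj hk with h | h
      · exact h.2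
      · exact absurd h.2 (not_lt.mpr (big j hbj' hj).le)

lemma mono_aux (n : ℕ) (hn : 4 ≤ n) (i : Fin n) (f : Fin n → ℝ)
    (hf : ∀ j k l : Fin n, j < k → k < l → j ≠ i → k ≠ i → l ≠ i →
      (f j < f k ∧ f k < f l) ∨ (f l < f k ∧ f k < f j)) :
    (∀ j k : Fin n, j < k → j ≠ i → k ≠ i → f j < f k) ∨
    (∀ j k : Fin n, j < k → j ≠ i → k ≠ i → f k < f j) := by
  -- the two smallest indices different from `i`, and a third one
  obtain ⟨a, b, l, hai, hbi, hli, hab, hbl, hmin⟩ : ∃ a b l : Fin n, a ≠ i ∧ b ≠ i ∧ l ≠ i ∧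
      a < b ∧ b < l ∧ ∀ j : Fin n, j ≠ i → j ≠ a → b ≤ j := by
    have hi := i.2
    rcases Nat.lt_or_ge i.1 2 with h2 | h2
    · refine ⟨⟨1 - i.1, by omega⟩, ⟨2, by omega⟩, ⟨3, by omega⟩, ?_, ?_, ?_, ?_, ?_, ?_⟩
      · intro h; have := congrArg Fin.val h; simp only at this; omega
      · intro h; have := congrArg Fin.val h; simp only at this; omega
      · intro h; have := congrArg Fin.val h; simp only at this; omega
      · rw [Fin.lt_def]; simp only; omega
      · rw [Fin.lt_def]; simp only; omega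
      · intro j h1 h3
        rw [Fin.le_def]
        have e1 : j.1 ≠ i.1 := fun h => h1 (Fin.ext h)
        have e2 : j.1 ≠ 1 - i.1 := fun h => h3 (Fin.ext h)
        simp only; omega
    · rcases Nat.lt_or_ge i.1 3 with h3 | h3
      · refine ⟨⟨0, by omega⟩, ⟨1, by omega⟩, ⟨3, by omega⟩, ?_, ?_, ?_, ?_, ?_, ?_⟩
        · intro h; have := congrArg Fin.val h; simp only at this; omega
        · intro h; have := congrArg Fin.val h; simp only at this; omega
        · intro h; have := congrArg Fin.val h; simp only at this; omega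
        · rw [Fin.lt_def]; simp only; omega
        · rw [Fin.lt_def]; simp only; omega
        · intro j h1 h3
          rw [Fin.le_def]
          have e2 : j.1 ≠ 0 := fun h => h3 (Fin.ext h)
          simp only; omega
      · refine ⟨⟨0, by omega⟩, ⟨1, by omega⟩, ⟨2, by omega⟩, ?_, ?_, ?_, ?_, ?_, ?_⟩
        · intro h; have := congrArg Fin.val h; simp only at this; omega
        · intro h; have := congrArg Fin.val h; simp only at this; omega
        · intro h; have := congrArg Fin.val h; simp only at this; omega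
        · rw [Fin.lt_def]; simp only; omega
        · rw [Fin.lt_def]; simp only; omega
        · intro j h1 h3
          rw [Fin.le_def]
          have e2 : j.1 ≠ 0 := fun h => h3 (Fin.ext h)
          simp only; omega
  rcases hf a b l hab hbl hai hbi hli with h | h
  · exact Or.inl (mono_aux1 n i a b f hf hai hbi hab hmin h.1)
  · right
    have := mono_aux1 n i a b (fun j => - f j)
      (fun j k l h1 h2 h3 h4 h5 => by
        rcases hf j k l h1 h2 h3 h4 h5 with h | h
        · right; exact ⟨neg_lt_neg h.2, neg_lt_neg h.1⟩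
        · left; exact ⟨neg_lt_neg h.2, neg_lt_neg h.1⟩)
      hai hbi hab hmin (neg_lt_neg h.2)
    intro j k h1 h2 h3
    exact neg_lt_neg_iff.mp (this j k h1 h2 h3)

lemma tangent_between (n : ℕ) (i j k l : Fin n) (hji : j ≠ i) (hki : k ≠ i) (hli : l ≠ i)
    (hjk : j < k) (hkl : k < l) : CrossBetween (cyclicWeaving n).line i j k l := by
  have e : ∀ m : Fin n, m ≠ i → i.1 ≠ m.1 := fun m hm h => hm (Fin.ext h.symm)
  refine ⟨_, _, _, (tangent_cross (e j hji) _).mpr rfl, (tangent_cross (e k hki) _).mpr rfl,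
    (tangent_cross (e l hli) _).mpr rfl, ?_⟩
  have h1 : (j.1 : ℝ) < k.1 := by exact_mod_cast hjk
  have h2 : (k.1 : ℝ) < l.1 := by exact_mod_cast hkl
  rw [sbtw_iff_mem_image_Ioo_and_ne]
  constructor
  · refine ⟨((k.1 : ℝ) - j.1) / (l.1 - j.1), ⟨?_, ?_⟩, ?_⟩
    · exact div_pos (by linarith) (by linarith)
    · rw [div_lt_one (by linarith)]; linarith
    · have h3 : (l.1 : ℝ) - j.1 ≠ 0 := by linarith
      rw [AffineMap.lineMap_apply]
      refine Prod.ext ?_ ?_
      · simp only [vsub_eq_sub, vadd_eq_add, Prod.fst_add, Prod.smul_fst, Prod.fst_sub, smul_eq_mul]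
        field_simp
        ring
      · simp only [vsub_eq_sub, vadd_eq_add, Prod.snd_add, Prod.smul_snd, Prod.snd_sub, smul_eq_mul]
        field_simp
        ring
  · intro h
    have := congrArg Prod.fst h
    simp only at this
    linarith

theorem cyclic_not_weak (n : ℕ) (hn : 4 ≤ n) : ¬ (cyclicWeaving n).WeaklyRealizable := by
  rintro ⟨R, hR, hS, hB, hA⟩
  -- parameters
  choose p v hv hRe using hR
  have memM : ∀ i (x : ℝ × ℝ), x ∈ proj '' R i ↔ ∃ t : ℝ, x = proj (p i) + t • proj (v i) := by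
    intro i x
    rw [hRe i]
    constructor
    · rintro ⟨q, ⟨t, rfl⟩, rfl⟩
      exact ⟨t, by simp [proj]⟩
    · rintro ⟨t, rfl⟩
      exact ⟨p i + t • v i, ⟨t, rfl⟩, by simp [proj]⟩
  have hd : ∀ i, proj (v i) ≠ 0 := by
    intro i h0
    obtain ⟨q, u, hu, hL⟩ := hS.isLine i
    have m1 : q ∈ proj '' R i := by rw [hL]; exact ⟨0, by simp⟩
    have m2 : q + u ∈ proj '' R i := by rw [hL]; exact ⟨1, by simp⟩
    obtain ⟨t1, e1⟩ := (memM i _).mp m1
    obtain ⟨t2, e2⟩ := (memM i _).mp m2
    rw [h0, smul_zero, add_zero] at e1 e2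
    apply hu
    have := e2.trans e1.symm
    simpa using this
  have hcr : ∀ i j, i ≠ j → ∃ t s : ℝ, proj (p i) + t • proj (v i) = proj (p j) + s • proj (v j) := by
    intro i j hij
    obtain ⟨x, ⟨h1, h2⟩, -⟩ := hS.cross i j hij
    obtain ⟨t, e1⟩ := (memM i x).mp h1
    obtain ⟨s, e2⟩ := (memM j x).mp h2
    exact ⟨t, s, e1.symm.trans e2⟩
  -- parameter of the crossing with line j on line i
  have hex : ∀ i j, ∃ t : ℝ, i ≠ j → proj (p i) + t • proj (v i) ∈ proj '' R j := by
    intro i j
    by_cases hij : i = j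
    · exact ⟨0, fun h => absurd hij h⟩
    · obtain ⟨t, s, e⟩ := hcr i j hij
      exact ⟨t, fun _ => (memM j _).mpr ⟨s, e⟩⟩
  choose t ht using hex
  have memi : ∀ i (s : ℝ), proj (p i) + s • proj (v i) ∈ proj '' R i := fun i s => (memM i _).mpr ⟨s, rfl⟩
  have uniq : ∀ i j, i ≠ j → ∀ x, x ∈ proj '' R i → x ∈ proj '' R j →
      x = proj (p i) + t i j • proj (v i) := by
    intro i j hij x h1 h2
    exact (hS.cross i j hij).unique ⟨h1, h2⟩ ⟨memi i _, ht i j hij⟩
  have hxy : ∀ i j, i ≠ j →
      proj (p i) + t i j • proj (v i) = proj (p j) + t j i • proj (v j) := by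
    intro i j hij
    exact uniq j i hij.symm _ (ht i j hij) (memi i _)
  have inj : ∀ i (s r : ℝ), proj (p i) + s • proj (v i) = proj (p i) + r • proj (v i) → s = r := by
    intro i s r h
    have h' : s • proj (v i) = r • proj (v i) := add_left_cancel h
    by_contra hne
    have : (s - r) • proj (v i) = 0 := by rw [sub_smul, h', sub_self]
    rcases smul_eq_zero.mp this with h1 | h1
    · exact hne (sub_eq_zero.mp h1)
    · exact hd i h1
  have hdet : ∀ i j, i ≠ j → (v i).1 * (v j).2.1 - (v i).2.1 * (v j).1 ≠ 0 := by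
    intro i j hij h0
    obtain ⟨lam, hlam⟩ : ∃ lam : ℝ, proj (v i) = lam • proj (v j) := by
      have hj := hd j
      by_cases h1 : (v j).1 = 0
      · have h2 : (v j).2.1 ≠ 0 := by
          intro h2; apply hj; simp [proj, h1, h2]
        refine ⟨(v i).2.1 / (v j).2.1, ?_⟩
        have h3 : (v i).1 = 0 := by
          rw [h1, mul_zero, sub_zero] at h0
          exact (mul_eq_zero.mp h0).resolve_right h2
        refine Prod.ext ?_ ?_
        · simp [proj, h1, h3]
        · simp [proj, h2]
      · refine ⟨(v i).1 / (v j).1, ?_⟩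
        refine Prod.ext ?_ ?_
        · simp [proj, h1]
        · simp only [proj, Prod.smul_snd, smul_eq_mul]
          field_simp
          linarith
    have e := hxy i j hij
    have m1 : proj (p i) + (t i j + 1) • proj (v i) ∈ proj '' R j := by
      refine (memM j _).mpr ⟨t j i + lam, ?_⟩
      rw [add_smul, add_smul, one_smul, ← add_assoc, ← add_assoc, e, hlam]
    have := uniq i j hij _ (memi i _) m1
    have := inj i _ _ this
    linarith
  -- order along the lines
  have hord : ∀ i j k l : Fin n, j < k → k < l → j ≠ i → k ≠ i → l ≠ i →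
      (t i j < t i k ∧ t i k < t i l) ∨ (t i l < t i k ∧ t i k < t i j) := by
    intro i j k l hjk hkl hj hk hl
    have hb := (hB i j k l hj hk hl hjk.ne hkl.ne (hjk.trans hkl).ne).mp
      (tangent_between n i j k l hj hk hl hjk hkl)
    obtain ⟨a, b, c, ⟨ha1, ha2⟩, ⟨hb1, hb2⟩, ⟨hc1, hc2⟩, hbt⟩ := hb
    have ea := uniq i j hj.symm a ha1 ha2
    have eb := uniq i k hk.symm b hb1 hb2
    have ec := uniq i l hl.symm c hc1 hc2
    rw [sbtw_iff_mem_image_Ioo_and_ne] at hbt
    obtain ⟨⟨θ, ⟨hθ0, hθ1⟩, hθ⟩, hne⟩ := hbt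
    rw [AffineMap.lineMap_apply, vsub_eq_sub, vadd_eq_add, ea, eb, ec] at hθ
    have hk' : t i j + θ * (t i l - t i j) = t i k := by
      apply inj i
      rw [← hθ]
      module
    have hne' : t i j ≠ t i l := by
      intro h; apply hne; rw [ea, ec, h]
    rcases lt_or_gt_of_ne hne' with h | h
    · left; constructor <;> nlinarith
    · right; constructor <;> nlinarith
  have hτ : ∀ i : Fin n, ∃ τ : ℝ, τ * τ = 1 ∧
      ∀ j k : Fin n, j < k → j ≠ i → k ≠ i → τ * t i j < τ * t i k := by
    intro i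
    rcases mono_aux n hn i (t i) (fun j k l h1 h2 h3 h4 h5 => hord i j k l h1 h2 h3 h4 h5) with h | h
    · exact ⟨1, by norm_num, fun j k h1 h2 h3 => by simpa using h j k h1 h2 h3⟩
    · exact ⟨-1, by norm_num, fun j k h1 h2 h3 => by simpa using h j k h1 h2 h3⟩
  choose τ hτ1 hτ2 using hτ
  have hz : ∀ i j, i ≠ j → (cyclicWeaving n).above i j →
      (p j).2.2 + t j i * (v j).2.2 < (p i).2.2 + t i j * (v i).2.2 := by
    intro i j hij hab
    have hmi : p i + t i j • v i ∈ R i := by rw [hRe i]; exact ⟨_, rfl⟩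
    have hmj : p j + t j i • v j ∈ R j := by rw [hRe j]; exact ⟨_, rfl⟩
    have := hA i j hij hab _ hmi _ hmj (by
      have e := hxy i j hij
      simpa [proj] using e)
    simpa using this
  refine param_contra n hn (fun i => (p i).1) (fun i => (p i).2.1) (fun i => τ i * (v i).1)
    (fun i => τ i * (v i).2.1) (fun i => (p i).2.2) (fun i => τ i * (v i).2.2)
    (fun i j => τ i * t i j) ?_ ?_ ?_ ?_ ?_ ?_
  · intro i j hij
    have e := congrArg Prod.fst (hxy i j hij)
    simp only [proj, Prod.fst_add, Prod.smul_fst, smul_eq_mul] at e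
    linear_combination e + (t i j * (v i).1) * hτ1 i - (t j i * (v j).1) * hτ1 j
  · intro i j hij
    have e := congrArg Prod.snd (hxy i j hij)
    simp only [proj, Prod.snd_add, Prod.smul_snd, smul_eq_mul] at e
    linear_combination e + (t i j * (v i).2.1) * hτ1 i - (t j i * (v j).2.1) * hτ1 j
  · intro i j hij h0
    apply hdet i j hij
    have : τ i * τ j * ((v i).1 * (v j).2.1 - (v i).2.1 * (v j).1) = 0 := by
      linear_combination h0
    rcases mul_eq_zero.mp this with h | h
    · exfalso
      have h1 := hτ1 i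
      have h2 := hτ1 j
      rcases mul_eq_zero.mp h with h' | h'
      · rw [h'] at h1; norm_num at h1
      · rw [h'] at h2; norm_num at h2
    · exact h
  · intro i j k hjk hj hk
    exact hτ2 i j k hjk hj hk
  · intro i j hij
    have hlt : i < j := by
      rw [Fin.lt_def]
      rcases hij with h | ⟨h1, h2⟩ <;> omega
    have := hz i j hlt.ne (Or.inl ⟨hlt, hij⟩)
    have e1 := hτ1 i
    have e2 := hτ1 j
    have g1 : τ j * t j i * (τ j * (v j).2.2) = t j i * (v j).2.2 := by
      linear_combination (t j i * (v j).2.2) * e2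
    have g2 : τ i * t i j * (τ i * (v i).2.2) = t i j * (v i).2.2 := by
      linear_combination (t i j * (v i).2.2) * e1
    simp only [g1, g2]
    exact this
  · intro i j hij hne
    have hlt : i < j := by rw [Fin.lt_def]; omega
    have := hz j i hlt.ne' (Or.inr ⟨hlt, fun h => by
      rcases h with h | h
      · omega
      · exact hne h⟩)
    have e1 := hτ1 i
    have e2 := hτ1 j
    have g1 : τ j * t j i * (τ j * (v j).2.2) = t j i * (v j).2.2 := by
      linear_combination (t j i * (v j).2.2) * e2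
    have g2 : τ i * t i j * (τ i * (v i).2.2) = t i j * (v i).2.2 := by
      linear_combination (t i j * (v i).2.2) * e1
    simp only [g1, g2]
    exact this

end Pool.Agent.H23.Weave
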