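import Mathlib

/-!
Convex polygons: no infinitesimal motion contracts all the sides and expands all the short
diagonals.  Points `q k = (c k, b k)`, velocities `u k = (h k, s k)`, periodic indices.
-/

namespace Pool.Agent.H23.Weave

lemma step_aux (e1 e2 f1 f2 : ℝ) (h1 : f1 * e1 + f2 * e2 = 0) (hN : 0 < e1 ^ 2 + e2 ^ 2) :
    f1 = -((-e2 * f1 + e1 * f2) / (e1 ^ 2 + e2 ^ 2)) * e2 ∧
      f2 = ((-e2 * f1 + e1 * f2) / (e1 ^ 2 + e2 ^ 2)) * e1 := by
  have hN' : e1 ^ 2 + e2 ^ 2 ≠ 0 := hN.ne'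
  constructor
  · field_simp
    linear_combination e1 * h1
  · field_simp
    linear_combination e2 * h1

lemma step (e1 e2 e1' e2' f1 f2 f1' f2' : ℝ)
    (h1 : f1 * e1 + f2 * e2 = 0) (h2 : f1' * e1' + f2' * e2' = 0)
    (hX : 0 < e1 * e2' - e2 * e1')
    (hD : 0 < (f1 + f1') * (e1 + e1') + (f2 + f2') * (e2 + e2')) :
    (-e2' * f1' + e1' * f2') / (e1' ^ 2 + e2' ^ 2) < (-e2 * f1 + e1 * f2) / (e1 ^ 2 + e2 ^ 2) := by
  have hN : 0 < e1 ^ 2 + e2 ^ 2 := by
    rcases eq_or_ne e1 0 with h | h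
    · rcases eq_or_ne e2 0 with h' | h'
      · rw [h, h'] at hX; simp at hX
      · positivity
    · positivity
  have hN' : 0 < e1' ^ 2 + e2' ^ 2 := by
    rcases eq_or_ne e1' 0 with h | h
    · rcases eq_or_ne e2' 0 with h' | h'
      · rw [h, h'] at hX; simp at hX
      · positivity
    · positivity
  obtain ⟨ha, hb⟩ := step_aux e1 e2 f1 f2 h1 hN
  obtain ⟨ha', hb'⟩ := step_aux e1' e2' f1' f2' h2 hN'
  set w := (-e2 * f1 + e1 * f2) / (e1 ^ 2 + e2 ^ 2) with hw
  set w' := (-e2' * f1' + e1' * f2') / (e1' ^ 2 + e2' ^ 2) with hw'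
  clear_value w w'
  subst ha hb ha' hb'
  by_contra hcon
  push Not at hcon
  have : (-w * e2 + -w' * e2') * (e1 + e1') + (w * e1 + w' * e1') * (e2 + e2')
      = (w - w') * (e1 * e2' - e2 * e1') := by ring
  rw [this] at hD
  nlinarith

/-- The polygon lemma. -/
theorem poly_contra (n : ℕ) (hn : 0 < n) (c b h s : ℕ → ℝ)
    (pc : ∀ k, c (k + n) = c k) (pb : ∀ k, b (k + n) = b k)
    (ph : ∀ k, h (k + n) = h k) (ps : ∀ k, s (k + n) = s k)
    (H1 : ∀ k, 0 < (c (k + 1) - c k) * (b (k + 2) - b (k + 1))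
      - (b (k + 1) - b k) * (c (k + 2) - c (k + 1)))
    (H2 : ∀ k, 0 < (c (k + 1) - c k) * (b (k + 3) - b (k + 1))
      - (b (k + 1) - b k) * (c (k + 3) - c (k + 1)))
    (H3 : ∀ k, (h (k + 1) - h k) * (c (k + 1) - c k) + (s (k + 1) - s k) * (b (k + 1) - b k) < 0)
    (H4 : ∀ k, 0 < (h (k + 2) - h k) * (c (k + 2) - c k)
      + (s (k + 2) - s k) * (b (k + 2) - b k)) : False := by
  set X : ℕ → ℝ := fun k => (c (k + 1) - c k) * (b (k + 2) - b (k + 1))
      - (b (k + 1) - b k) * (c (k + 2) - c (k + 1)) with hX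
  set D : ℕ → ℝ := fun k =>
    (h (k + 1) - h k) * (c (k + 1) - c k) + (s (k + 1) - s k) * (b (k + 1) - b k) with hD
  set ε : ℕ → ℝ := fun k => - D (k + 1) / X k with hε
  have εpos : ∀ k, 0 < ε k := fun k => div_pos (neg_pos.mpr (H3 (k + 1))) (H1 k)
  have εX : ∀ k, ε k * X k = - D (k + 1) := fun k => by
    have hx : X k ≠ 0 := (H1 k).ne'
    simp only [hε]
    exact div_mul_cancel₀ _ hx
  -- corrected velocities
  set v1 : ℕ → ℝ := fun k => h (k + 1) + ε k * (b (k + 1) - b k) with hv1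
  set v2 : ℕ → ℝ := fun k => s (k + 1) - ε k * (c (k + 1) - c k) with hv2
  set ω : ℕ → ℝ := fun k =>
    (-(b (k + 2) - b (k + 1)) * (v1 (k + 1) - v1 k) + (c (k + 2) - c (k + 1)) * (v2 (k + 1) - v2 k))
      / ((c (k + 2) - c (k + 1)) ^ 2 + (b (k + 2) - b (k + 1)) ^ 2) with hω
  have perp : ∀ k, (v1 (k + 1) - v1 k) * (c (k + 2) - c (k + 1))
      + (v2 (k + 1) - v2 k) * (b (k + 2) - b (k + 1)) = 0 := by
    intro k
    have := εX k
    simp only [hX, hD] at this
    simp only [hv1, hv2]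
    linear_combination this
  have anti : ∀ k, ω (k + 1) < ω k := by
    intro k
    apply step
    · have := perp k
      linarith
    · have := perp (k + 1)
      simpa [add_assoc] using this
    · have := H1 (k + 1)
      simp only [add_assoc] at this ⊢
      norm_num at this ⊢
      linarith
    · have h4 := H4 (k + 1)
      have h2 := H2 k
      have e0 := εpos k
      have e2 := εpos (k + 2)
      have hx := H1 (k + 1)
      have i1 := mul_pos e2 hx
      have i2 := mul_pos e0 h2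
      have i3 := add_pos (add_pos h4 i1) i2
      refine lt_of_lt_of_eq i3 ?_
      simp only [hv1, hv2]
      have t1 : k + 1 + 1 = k + 2 := rfl
      have t2 : k + 1 + 2 = k + 3 := rfl
      have t3 : k + 2 + 1 = k + 3 := rfl
      have t4 : k + 1 + 1 + 1 = k + 3 := rfl
      simp only [t1, t2, t3]
      ring
  have per : ω (0 + n) = ω 0 := by
    have e : ∀ j, 0 + n + j = j + n := fun j => by omega
    have hc : ∀ j, c (0 + n + j) = c (0 + j) := fun j => by rw [e, pc, zero_add]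
    have hb : ∀ j, b (0 + n + j) = b (0 + j) := fun j => by rw [e, pb, zero_add]
    have hh : ∀ j, h (0 + n + j) = h (0 + j) := fun j => by rw [e, ph, zero_add]
    have hs : ∀ j, s (0 + n + j) = s (0 + j) := fun j => by rw [e, ps, zero_add]
    have hc0 : c (0 + n) = c 0 := pc 0
    have hb0 : b (0 + n) = b 0 := pb 0
    simp only [hω, hv1, hv2, hε, hX, hD, add_assoc] at *
    simp only [hc, hb, hh, hs, hc0, hb0]
  have := strictAnti_nat_of_succ_lt anti hn
  rw [← zero_add n, per] at this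
  exact lt_irrefl _ this

end Pool.Agent.H23.Weave
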