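import Pool.Agent.H23.Weave.Defs

namespace Pool.Agent.H23.Weave

/-- height at `x = 0` of the line over the tangent line `k`, when the line `ℓ` is deleted;
`N = n - 1`. -/
noncomputable def hgt (N : ℝ) (ℓ k : ℕ) : ℝ :=
  if k < ℓ then 8 * (k : ℝ) ^ 3 - 5 * k - 2 * N * (N + 1) * (2 * N + 1) + 12 * (N + 1) * (k : ℝ) ^ 2
  else 8 * (k : ℝ) ^ 3 - 5 * k

/-- slope of the line over the tangent line `k`. -/
noncomputable def slp (N : ℝ) (ℓ k : ℕ) : ℝ :=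
  if k < ℓ then -12 * (k : ℝ) ^ 2 + 12 * N * (N + 1) - 24 * (N + 1) * k
  else -12 * (k : ℝ) ^ 2

/-- difference of the heights at the crossing. -/
lemma diff_same (N : ℝ) (ℓ i j : ℕ) (h : (i < ℓ ∧ j < ℓ) ∨ (¬ i < ℓ ∧ ¬ j < ℓ)) :
    (hgt N ℓ j + slp N ℓ j * (((i : ℝ) + j) / 2)) - (hgt N ℓ i + slp N ℓ i * (((i : ℝ) + j) / 2))
      = ((j : ℝ) - i) * (2 * ((j : ℝ) - i) ^ 2 - 5) := by
  rcases h with ⟨h1, h2⟩ | ⟨h1, h2⟩
  · simp only [hgt, slp, h1, h2, if_true]; ring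
  · simp only [hgt, slp, h1, h2, if_false]; ring

lemma diff_cross (ℓ i d m : ℕ) (h1 : i < ℓ) (h2 : ¬ i + d < ℓ) :
    (hgt ((i + d + m : ℕ) : ℝ) ℓ (i + d) + slp ((i + d + m : ℕ) : ℝ) ℓ (i + d) * (((i : ℝ) + (i + d : ℕ)) / 2))
      - (hgt ((i + d + m : ℕ) : ℝ) ℓ i + slp ((i + d + m : ℕ) : ℝ) ℓ i * (((i : ℝ) + (i + d : ℕ)) / 2))
      = 2 * i * (i + 1) * (2 * i + 1) + 6 * d * (i * (i + 1)) + 2 * m * (m + 1) * (2 * m + 1)
        + 6 * d * (m * (m + 1)) - 3 * d := by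
  simp only [hgt, slp, h1, h2, if_true, if_false]
  push_cast
  ring

/-- The signs of the height differences. -/
lemma sign_diff (n : ℕ) (ℓ i j : ℕ) (hn : 4 ≤ n) (hℓ : ℓ < n) (hij : i < j) (hj : j < n)
    (hi : i ≠ ℓ) (hj' : j ≠ ℓ) :
    ((i + 1 = j ∨ (i = 0 ∧ j = n - 1)) →
      hgt ((n - 1 : ℕ) : ℝ) ℓ j + slp ((n - 1 : ℕ) : ℝ) ℓ j * (((i : ℝ) + j) / 2)
        < hgt ((n - 1 : ℕ) : ℝ) ℓ i + slp ((n - 1 : ℕ) : ℝ) ℓ i * (((i : ℝ) + j) / 2)) ∧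
    (¬ (i + 1 = j ∨ (i = 0 ∧ j = n - 1)) →
      hgt ((n - 1 : ℕ) : ℝ) ℓ i + slp ((n - 1 : ℕ) : ℝ) ℓ i * (((i : ℝ) + j) / 2)
        < hgt ((n - 1 : ℕ) : ℝ) ℓ j + slp ((n - 1 : ℕ) : ℝ) ℓ j * (((i : ℝ) + j) / 2)) := by
  by_cases hs : (i < ℓ ∧ j < ℓ) ∨ (¬ i < ℓ ∧ ¬ j < ℓ)
  · have hd := diff_same ((n - 1 : ℕ) : ℝ) ℓ i j hs
    constructor
    · intro hc
      have h1 : i + 1 = j := by omega
      have h2 : (j : ℝ) = i + 1 := by rw [← h1]; push_cast; ring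
      have : ((j : ℝ) - i) * (2 * ((j : ℝ) - i) ^ 2 - 5) = -3 := by rw [h2]; ring
      linarith
    · intro hc
      have h1 : i + 2 ≤ j := by omega
      have h2 : (i : ℝ) + 2 ≤ j := by exact_mod_cast h1
      have h3 : (2 : ℝ) ≤ (j : ℝ) - i := by linarith
      have : 0 < ((j : ℝ) - i) * (2 * ((j : ℝ) - i) ^ 2 - 5) := by
        apply mul_pos (by linarith)
        nlinarith
      linarith
  · have h1 : i < ℓ := by omega
    have h2 : ¬ j < ℓ := by omega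
    obtain ⟨d, rfl⟩ : ∃ d, j = i + d := ⟨j - i, by omega⟩
    obtain ⟨m, hm⟩ : ∃ m, n - 1 = i + d + m := ⟨n - 1 - (i + d), by omega⟩
    rw [hm]
    have hd := diff_cross ℓ i d m h1 h2
    have hd2 : 2 ≤ d := by omega
    have hd2' : (2 : ℝ) ≤ d := by exact_mod_cast hd2
    have hi0 : (0 : ℝ) ≤ i := Nat.cast_nonneg i
    have hm0 : (0 : ℝ) ≤ m := Nat.cast_nonneg m
    constructor
    · intro hc
      have hi' : i = 0 := by omega
      have hm' : m = 0 := by omega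
      rw [hi', hm'] at hd ⊢
      push_cast at hd ⊢
      simp only [zero_add, mul_zero, zero_mul, add_zero] at hd ⊢
      linarith
    · intro hc
      have hor : 1 ≤ i ∨ 1 ≤ m := by omega
      have key : (0 : ℝ) < 2 * i * (i + 1) * (2 * i + 1) + 6 * d * (i * (i + 1))
          + 2 * m * (m + 1) * (2 * m + 1) + 6 * d * (m * (m + 1)) - 3 * d := by
        have a1 : (0 : ℝ) ≤ 2 * i * (i + 1) * (2 * i + 1) := by positivity
        have a2 : (0 : ℝ) ≤ 2 * m * (m + 1) * (2 * m + 1) := by positivity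
        have a3 : (0 : ℝ) ≤ 6 * d * (i * (i + 1)) := by positivity
        have a4 : (0 : ℝ) ≤ 6 * d * (m * (m + 1)) := by positivity
        rcases hor with h | h
        · have h' : (1 : ℝ) ≤ i := by exact_mod_cast h
          have : (2 : ℝ) ≤ i * (i + 1) := by nlinarith
          nlinarith
        · have h' : (1 : ℝ) ≤ m := by exact_mod_cast h
          have : (2 : ℝ) ≤ m * (m + 1) := by nlinarith
          nlinarith
      linarith

/-- The line in space over the tangent line `k`. -/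
noncomputable def spaceLine (N : ℝ) (ℓ k : ℕ) : Set (ℝ × ℝ × ℝ) :=
  {q | q.2.1 = 2 * (k : ℝ) * q.1 - (k : ℝ) ^ 2 ∧ q.2.2 = hgt N ℓ k + slp N ℓ k * q.1}

lemma spaceLine_isLine (N : ℝ) (ℓ k : ℕ) : IsLine (spaceLine N ℓ k) := by
  refine ⟨(0, -(k : ℝ) ^ 2, hgt N ℓ k), (1, 2 * (k : ℝ), slp N ℓ k), ?_, ?_⟩
  · intro h
    have := congrArg Prod.fst h
    simp at this
  · ext q
    simp only [spaceLine, Set.mem_ofPred_eq]
    constructor
    · rintro ⟨h1, h2⟩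
      refine ⟨q.1, Prod.ext ?_ (Prod.ext ?_ ?_)⟩
      · simp
      · simp only [Prod.snd_add, Prod.smul_snd, Prod.fst_add, Prod.smul_fst, smul_eq_mul]
        rw [h1]; ring
      · simp only [Prod.snd_add, Prod.smul_snd, smul_eq_mul]
        rw [h2]; ring
    · rintro ⟨t, rfl⟩
      simp only [Prod.snd_add, Prod.smul_snd, Prod.fst_add, Prod.smul_fst, smul_eq_mul]
      constructor <;> ring

lemma spaceLine_proj (N : ℝ) (ℓ k : ℕ) : proj '' spaceLine N ℓ k = tangentLine k := by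
  ext x
  simp only [spaceLine, tangentLine, Set.mem_image, Set.mem_ofPred_eq]
  constructor
  · rintro ⟨q, ⟨h1, _⟩, rfl⟩
    simpa [proj] using h1
  · intro h
    exact ⟨(x.1, x.2, hgt N ℓ k + slp N ℓ k * x.1), ⟨h, rfl⟩, rfl⟩

theorem cyclic_delete_realizable (n : ℕ) (hn : 4 ≤ n) (ℓ : Fin n) :
    ((cyclicWeaving n).delete ℓ).Realizable := by
  refine ⟨fun i => spaceLine ((n - 1 : ℕ) : ℝ) ℓ.1 i.1.1, fun i => spaceLine_isLine _ _ _,
    fun i => spaceLine_proj _ _ _, ?_⟩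
  rintro ⟨i, hi⟩ ⟨j, hj⟩ hij hab a ha b hb hpr
  have hij' : i ≠ j := fun h => hij (Subtype.ext h)
  have hijv : i.1 ≠ j.1 := fun h => hij' (Fin.ext h)
  simp only [spaceLine, Set.mem_ofPred_eq] at ha hb
  simp only [proj, Prod.mk.injEq] at hpr
  have hcr := (tangent_cross hijv (a.1, a.2.1)).mp ⟨ha.1, by
    simp only [tangentLine, Set.mem_ofPred_eq]; rw [hpr.1, hpr.2]; exact hb.1⟩
  have hax : a.1 = ((i.1 : ℝ) + j.1) / 2 := congrArg Prod.fst hcr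
  have hbx : b.1 = ((i.1 : ℝ) + j.1) / 2 := by rw [← hpr.1]; exact hax
  have hi' : i.1 ≠ ℓ.1 := fun h => hi (Fin.ext h)
  have hj' : j.1 ≠ ℓ.1 := fun h => hj (Fin.ext h)
  rw [ha.2, hb.2, hax, hbx]
  change (i < j ∧ Consec n i j) ∨ (j < i ∧ ¬ Consec n j i) at hab
  rcases hab with ⟨h1, h2⟩ | ⟨h1, h2⟩
  · exact (sign_diff n ℓ.1 i.1 j.1 hn ℓ.2 h1 j.2 hi' hj').1 h2
  · have := (sign_diff n ℓ.1 j.1 i.1 hn ℓ.2 h1 i.2 hj' hi').2 h2
    rw [add_comm (i.1 : ℝ) (j.1 : ℝ)]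
    exact this

end Pool.Agent.H23.Weave
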